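import Pool.Agent.H52.HMS.LBase

set_option autoImplicit false

namespace Pool.HMS

open TMLib Finset

theorem lthk_thm (h1 : S_LSCH) : S_LTHK := by
  intro D G hD hL hR
  obtain ⟨hs, -, -⟩ := h1 D G (mu G) (rr G) hL
  -- consecutive lengths
  have hcons : ∀ k, k + 1 < D → rr G k ≤ 2 * rr G (k + 1) := by
    intro k hk
    have e1 : sch G k (k + 1) (k + 1) = mu G (k + 1) k ^ 2 * rr G k + rr G (k + 1) := by
      rw [hs k (by omega) (k + 1) hk (k + 1) hk]
      rw [Finset.sum_eq_sum_Ico_succ_bot (by omega : k < D),
        Finset.sum_eq_sum_Ico_succ_bot (by omega : k + 1 < D)]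
      have e2 : ∑ l ∈ Ico (k + 1 + 1) D, mu G (k + 1) l * rr G l * mu G (k + 1) l = 0 := by
        apply Finset.sum_eq_zero
        intro l hl
        rw [mem_Ico] at hl
        rw [hL.tri (k + 1) hk l hl.2 (by omega)]
        ring
      rw [e2, hL.one (k + 1) hk]
      ring
    have e3 := hR.lov k hk
    have e4 := hR.red (k + 1) hk k (by omega)
    have e5 : mu G (k + 1) k ^ 2 ≤ 1 / 4 := by
      have := abs_le.mp e4
      nlinarith [this.1, this.2]
    have e6 := hL.pos k (by omega)
    rw [e1] at e3
    nlinarith [mul_le_mul_of_nonneg_right e5 e6.le]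
  have hlast : 0 < rr G (D - 1) := hL.pos (D - 1) (by omega)
  have hind : ∀ t, t ≤ D - 1 → rr G (D - 1 - t) ≤ 2 ^ t * rr G (D - 1) := by
    intro t
    induction t with
    | zero => intro _; simp
    | succ t ih =>
      intro ht
      have i1 := ih (by omega)
      have i2 := hcons (D - 1 - (t + 1)) (by omega)
      have i3 : D - 1 - (t + 1) + 1 = D - 1 - t := by omega
      rw [i3] at i2
      rw [pow_succ]
      linarith
  have hall : ∀ l < D, rr G l ≤ 2 ^ (D - 1) * rr G (D - 1) := by
    intro l hl
    have j1 := hind (D - 1 - l) (by omega)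
    have j2 : D - 1 - (D - 1 - l) = l := by omega
    rw [j2] at j1
    refine le_trans j1 (mul_le_mul_of_nonneg_right ?_ hlast.le)
    exact pow_le_pow_right₀ (by norm_num) (by omega)
  constructor
  · intro i hi
    rw [hL.eq i hi i hi]
    calc ∑ l ∈ range D, mu G i l * rr G l * mu G i l
        ≤ ∑ l ∈ range D, 2 ^ (D - 1) * rr G (D - 1) := by
          apply Finset.sum_le_sum
          intro l hl
          rw [mem_range] at hl
          have hp := hL.pos l hl
          have ha := hall l hl
          rcases lt_trichotomy l i with h | h | h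
          · have e4 := hR.red i hi l h
            have e5 : mu G i l ^ 2 ≤ 1 := by
              have := abs_le.mp e4
              nlinarith [this.1, this.2]
            nlinarith [mul_le_mul_of_nonneg_right e5 hp.le]
          · subst h
            rw [hL.one l hl]
            linarith
          · rw [hL.tri i hi l hl h]
            nlinarith
      _ = D * 2 ^ (D - 1) * rr G (D - 1) := by
          rw [Finset.sum_const, card_range, nsmul_eq_mul]
          ring
  · calc ∏ l ∈ range D, rr G l ≤ ∏ l ∈ range D, 2 ^ (D - 1) * rr G (D - 1) := by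
          apply Finset.prod_le_prod
          · intro l hl
            exact (hL.pos l (mem_range.mp hl)).le
          · intro l hl
            exact hall l (mem_range.mp hl)
      _ = (2 ^ (D - 1) * rr G (D - 1)) ^ D := by
          rw [Finset.prod_const, card_range]

end Pool.HMS
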